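import Pool.Agent.X220.FP.Cor
import Pool.Agent.X220.FP.Alg

/-!
# Almost primes which are sums of three consecutive squares, with prescribed fractional parts, in short intervals

Let `P_1, …, P_s` be real polynomials of degree at most `k ≥ 1` whose vector of the coefficients of `x ^ k` is of finite type:
the distance of `h_1 α_1 + … + h_s α_s` to the nearest integer is at least `c₀ / |h| ^ τ` for all nonzero integral vectors
`h` (for example `α_1, …, α_s` are algebraic and `1, α_1, …, α_s` are linearly independent over the rational numbers). We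
consider the numbers `n ^ 2 + (n + 1) ^ 2 + (n + 2) ^ 2` for the integers `n` of an ARBITRARY short interval `(M, M + H]` for
which all the fractional parts of `P_i(n) - u_i` are less than `ρ_i`, where the `ρ_i` may be as small as `H ^ (-δ)`.
* If `M + H ≤ H ^ B`, where `B` is arbitrary, the number of the `n` for which this number has a bounded number of prime
  factors, all greater than `H ^ δ`, has the expected order of magnitude.
* The number of the `n` for which it is a prime is at most of this order.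
* The number of the `n` for which it has no prime factor up to `z` is given by an asymptotic formula.

All this is uniform in the polynomials `P_i`, in `M`, and in the boxes. The proof combines the fundamental lemma of the
sieve, Mertens' theorem for polynomials (in the starting files), Weyl's inequality, and Liouville's inequality for norms.
-/

set_option autoImplicit false

namespace Pool.Agent.Results.MP_63eb26_nt.FractionalParts

open Finset Polynomial

/-- the vector `α` is of finite type, with the constants `c₀` and `τ` -/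
def FiniteType {s : ℕ} (c₀ : ℝ) (τ : ℕ) (α : Fin s → ℝ) : Prop :=
  ∀ h : Fin s → ℤ, h ≠ 0 → ∀ a : ℤ, c₀ ≤ (∑ i, |(h i : ℝ)|) ^ τ * |(∑ i, h i * α i) - a|

/-- all the fractional parts of `P_i(n) - u_i` are less than `ρ_i` -/
def InBox {s : ℕ} (P : Fin s → ℝ[X]) (u ρ : Fin s → ℝ) (n : ℕ) : Prop :=
  ∀ i, Int.fract ((P i).eval (n : ℝ) - u i) < ρ i

/-- `m ≠ 0` has at most `r` prime factors, counted with multiplicity, all of them greater than `x`. -/
def AlmostPrime (r : ℕ) (x : ℝ) (m : ℕ) : Prop :=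
  m ≠ 0 ∧ m.primeFactorsList.length ≤ r ∧ ∀ q : ℕ, q.Prime → q ∣ m → x < q

/-- the number `n ^ 2 + (n + 1) ^ 2 + (n + 2) ^ 2` -/
def val (n : ℕ) : ℕ := n ^ 2 + (n + 1) ^ 2 + (n + 2) ^ 2

/-- the number of the `n` in `(M, M + H]` with the property `R` for which `val n` is an almost prime -/
noncomputable def almost (r : ℕ) (w : ℝ) (M H : ℕ) (R : ℕ → Prop) : ℕ :=
  Set.ncard {n : ℕ | M < n ∧ n ≤ M + H ∧ R n ∧ AlmostPrime r w (val n)}

/-- the number of the `n` in `(M, M + H]` with the property `R` for which `val n` is a prime -/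
noncomputable def primes (M H : ℕ) (R : ℕ → Prop) : ℕ :=
  Set.ncard {n : ℕ | M < n ∧ n ≤ M + H ∧ R n ∧ (val n).Prime}

/-- the number of the `n` in `(M, M + H]` with the property `R` for which `val n` has no prime factor up to `z` -/
noncomputable def rough (z M H : ℕ) (R : ℕ → Prop) : ℕ :=
  Set.ncard {n : ℕ | M < n ∧ n ≤ M + H ∧ R n ∧ ∀ l : ℕ, l.Prime → l ≤ z → ¬ l ∣ val n}

/-- the product over the primes `l ≤ z` of `1 - ν(l) / l`, where `ν(l)` is the number of the residues `n` modulo `l` for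
which `val n` is divisible by `l` -/
noncomputable def V (z : ℕ) : ℝ :=
  ∏ l ∈ (Icc 1 z).filter Nat.Prime, (1 - (Set.ncard {n : ℕ | n < l ∧ l ∣ val n} : ℝ) / l)

/-- the bounds for the interval `(M, M + H]` and the property `R`, with the expected number `N` -/
def Bounds (T r : ℕ) (δ c C : ℝ) (B M H : ℕ) (R : ℕ → Prop) (N : ℝ) : Prop :=
  (M + H ≤ T ^ B → c * N / Real.log T ≤ almost r ((T : ℝ) ^ δ) M H R) ∧
    (primes M H R : ℝ) ≤ C * N / Real.log T

/-- the asymptotic formula for the interval `(M, M + H]` and the property `R`, with the expected number `N` -/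
def Rough (η : ℝ) (M H z : ℕ) (R : ℕ → Prop) (N : ℝ) : Prop :=
  |(rough z M H R : ℝ) - N * V z| ≤ η * (N * V z)

/-- the polynomial -/
noncomputable def f : Fin 1 → ℤ[X] := ![C 3 * X ^ 2 + C 6 * X + C 5]

/-- the values -/
def F : Fin 1 → ℕ → ℕ := ![val]

lemma f_sys : Pool.Agent.X55.Fam.Sys 1 f := by
  have hdeg : (C 3 * X ^ 2 + C 6 * X + C 5 : ℤ[X]).natDegree = 2 := natDegree_quadratic (by norm_num)
  refine ⟨fun i => ?_, fun i => ?_, fun i j hij => absurd (Subsingleton.elim i j) hij, fun q hq => ?_⟩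
  · fin_cases i
    refine Pool.Agent.X55.Fam.quad_irr 3 6 5 (by norm_num) (fun e _ h1 h2 => ?_) ?_
    · have h3 := dvd_sub h1 h2
      norm_num at h3
      exact isUnit_of_dvd_one h3
    · rintro ⟨x, hx⟩
      nlinarith [mul_self_nonneg x]
  · fin_cases i
    show 0 < (C 3 * X ^ 2 + C 6 * X + C 5 : ℤ[X]).natDegree
    rw [hdeg]
    norm_num
  · have hnu : ¬ (q : ℤ) ∣ 1 := by
      intro h
      have := Int.eq_one_of_dvd_one (by positivity) h
      have := hq.two_le
      omega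
    have key : ∃ n : ℕ, ¬ (q : ℤ) ∣ 3 * (n : ℤ) ^ 2 + 6 * n + 5 := by
      by_cases h : (q : ℤ) ∣ 5
      · refine ⟨1, fun h2 => hnu ?_⟩
        have h3 := dvd_sub (h.mul_left 3) h2
        norm_num at h3
        exact h3
      · exact ⟨0, by simpa using h⟩
    obtain ⟨n, h2⟩ := key
    refine ⟨n, fun i hi => ?_⟩
    fin_cases i
    have h3 : (q : ℤ) ∣ (C 3 * X ^ 2 + C 6 * X + C 5 : ℤ[X]).eval (n : ℤ) := hi
    simp only [eval_add, eval_mul, eval_pow, eval_X, eval_C] at h3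
    exact h2 h3

lemma hF (i : Fin 1) (n : ℕ) : ((f i).eval (n : ℤ)).natAbs = F i n := by
  fin_cases i
  show ((C 3 * X ^ 2 + C 6 * X + C 5 : ℤ[X]).eval (n : ℤ)).natAbs = val n
  simp only [eval_add, eval_mul, eval_pow, eval_X, eval_C, val]
  have e : (3 * (n : ℤ) ^ 2 + 6 * n + 5) = ((n ^ 2 + (n + 1) ^ 2 + (n + 2) ^ 2 : ℕ) : ℤ) := by
    push_cast
    ring
  rw [e, Int.natAbs_natCast]

lemma conv {P r : ℕ} {δ c C : ℝ} {B M H : ℕ} {R : ℕ → Prop} {N : ℝ}
    (h : Pool.Agent.X55.Fam.Both F P r δ c C B M H R N) : Bounds P r δ c C B M H R N := by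
  unfold Pool.Agent.X55.Fam.Both at h
  simpa [Bounds, almost, primes, AlmostPrime, F, Pool.Agent.X55.Fam.Good, Fin.forall_fin_succ] using h

lemma convA {η : ℝ} {M H z : ℕ} {R : ℕ → Prop} {N : ℝ}
    (h : Pool.Agent.X55.Fam.Asym F η M H z R N) : Rough η M H z R N := by
  unfold Pool.Agent.X55.Fam.Asym at h
  simpa [Rough, rough, V, F, Fin.forall_fin_succ, Fin.exists_fin_succ] using h

theorem result :
    (∀ (s k τ : ℕ) (c₀ : ℝ), 1 ≤ k → 0 < c₀ →
    (∀ B : ℕ, ∃ (r : ℕ) (δ c C : ℝ) (H₀ : ℕ), 0 < δ ∧ 0 < c ∧ 0 < C ∧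
      ∀ H : ℕ, H₀ ≤ H → ∀ P : Fin s → ℝ[X], (∀ i, (P i).natDegree ≤ k) → FiniteType c₀ τ (fun i => (P i).coeff k) →
      ∀ u ρ : Fin s → ℝ, (∀ i, (H : ℝ) ^ (-δ) ≤ ρ i ∧ ρ i ≤ 1) → ∀ M : ℕ,
      Bounds H r δ c C B M H (InBox P u ρ) (H * ∏ i, ρ i)) ∧
    (∀ η : ℝ, 0 < η → ∃ (δ : ℝ) (H₀ : ℕ), 0 < δ ∧
      ∀ H : ℕ, H₀ ≤ H → ∀ P : Fin s → ℝ[X], (∀ i, (P i).natDegree ≤ k) → FiniteType c₀ τ (fun i => (P i).coeff k) →
      ∀ u ρ : Fin s → ℝ, (∀ i, (H : ℝ) ^ (-δ) ≤ ρ i ∧ ρ i ≤ 1) → ∀ M z : ℕ, 3 ≤ z → (z : ℝ) ≤ (H : ℝ) ^ δ →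
      Rough η M H z (InBox P u ρ) (H * ∏ i, ρ i))) ∧
    -- algebraic numbers
    (∀ (s : ℕ) (α : Fin s → ℝ), (∀ i, IsAlgebraic ℚ (α i)) →
      (∀ (h : Fin s → ℤ) (a : ℤ), ∑ i, (h i : ℝ) * α i = a → h = 0) →
      ∃ (c₀ : ℝ) (τ : ℕ), 0 < c₀ ∧ FiniteType c₀ τ α) := by
  refine ⟨fun s k τ c₀ hk hc₀ => ⟨?_, ?_⟩,
    fun s α hα hind => Pool.Agent.X220.FP.liouville_vec s α hα hind⟩
  · intro B
    obtain ⟨r, δ, c, C, H₀, hδ, hc, hC, h⟩ := Pool.Agent.X220.FP.fp_both s k τ hk c₀ hc₀ f_sys F hF B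
    exact ⟨r, δ, c, C, H₀, hδ, hc, hC, fun H hH P hP hFT u ρ hρ M => conv (h H hH P hP hFT u ρ hρ M)⟩
  · intro η hη
    obtain ⟨δ, H₀, hδ, h⟩ := Pool.Agent.X220.FP.fp_asym s k τ hk c₀ hc₀ f_sys F hF η hη
    exact ⟨δ, H₀, hδ, fun H hH P hP hFT u ρ hρ M z hz hzH => convA (h H hH P hP hFT u ρ hρ M z hz hzH)⟩

end Pool.Agent.Results.MP_63eb26_nt.FractionalParts
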